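import Mathlib

/-!
# Outer-connected domination of middle graphs

For chains of `k` four-cycles the outer-connected domination number of the middle graph is at most
`2k + 1` while that of the graph is at least `3k - 3`.
-/

set_option autoImplicit false

namespace Pool.Agent.Results.MP_43f51c_co.CycleChains

/-- The middle graph `M(G)`: vertices are the vertices and the edges of `G`; two edges are adjacent
when they are distinct and share an endpoint, a vertex and an edge are adjacent when they are
incident, and two vertices are never adjacent. -/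
def middleGraph {V : Type*} (G : SimpleGraph V) : SimpleGraph (V ⊕ G.edgeSet) where
  Adj
    | Sum.inl _, Sum.inl _ => False
    | Sum.inl v, Sum.inr e => v ∈ e.1
    | Sum.inr e, Sum.inl v => v ∈ e.1
    | Sum.inr e, Sum.inr f => e ≠ f ∧ ∃ v, v ∈ e.1 ∧ v ∈ f.1
  symm := ⟨by
    rintro (u | e) (v | f) h
    · exact h
    · exact h
    · exact h
    · exact ⟨h.1.symm, h.2.imp fun _ hv => ⟨hv.2, hv.1⟩⟩⟩
  loopless := ⟨by
    rintro (u | e) h
    · exact h
    · exact h.1 rfl⟩

/-- `S` is an outer-connected dominating set of `H`: every vertex outside `S` has a neighbour in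
`S`, and deleting `S` leaves a connected graph. -/
def IsOuterConnectedDominating {W : Type*} (H : SimpleGraph W) (S : Finset W) : Prop :=
  (∀ v, v ∉ S → ∃ u ∈ S, H.Adj v u) ∧ (H.induce {v : W | v ∉ S}).Connected

/-- The outer-connected domination number. -/
noncomputable def outerConnDomNum {W : Type*} (H : SimpleGraph W) : ℕ :=
  sInf {m | ∃ S : Finset W, IsOuterConnectedDominating H S ∧ S.card = m}

/-- Vertices of the chain: `inl b` are the joints, `inr (i, c)` the two middle vertices of the
`i`-th four-cycle. -/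
abbrev V (k : ℕ) : Type := Fin (k + 1) ⊕ (Fin k × Bool)

/-- The chain of `k` four-cycles. -/
def G (k : ℕ) : SimpleGraph (V k) where
  Adj
    | Sum.inl b, Sum.inr p => b = p.1.castSucc ∨ b = p.1.succ
    | Sum.inr p, Sum.inl b => b = p.1.castSucc ∨ b = p.1.succ
    | _, _ => False
  symm := ⟨by
    rintro (u | e) (v | f) h
    · exact h
    · exact h
    · exact h
    · exact h⟩
  loopless := ⟨by
    rintro (u | e) h
    · exact h
    · exact h⟩

/-! ### The lower bound for `G` -/

lemma closure_of_connected {W : Type*} (H : SimpleGraph W) (X : Set W)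
    (hc : (H.induce X).Connected) (x₀ : W) (hx₀ : x₀ ∈ X) (Y : Set W) (h0 : x₀ ∈ Y)
    (hcl : ∀ y ∈ X, y ∈ Y → ∀ z ∈ X, H.Adj y z → z ∈ Y) : X ⊆ Y := by
  intro x hx
  obtain ⟨w⟩ := hc.preconnected ⟨x₀, hx₀⟩ ⟨x, hx⟩
  have key : ∀ (a b : X), (H.induce X).Walk a b → a.1 ∈ Y → b.1 ∈ Y := by
    intro a b p
    induction p with
    | nil => exact fun h => h
    | @cons a c b hadj _ ih =>
      intro ha
      exact ih (hcl a.1 a.2 ha c.1 c.2 hadj)
  exact key _ _ w h0

lemma lower (k : ℕ) (S : Finset (V k)) (hS : IsOuterConnectedDominating (G k) S) :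
    3 * k + 1 ≤ S.card + 4 := by
  classical
  obtain ⟨hd, hc⟩ := hS
  have hcard : Fintype.card (V k) = 3 * k + 1 := by
    simp only [V, Fintype.card_sum, Fintype.card_fin, Fintype.card_prod, Fintype.card_bool]
    ring
  have hcompl : Sᶜ.card + S.card = 3 * k + 1 := by
    rw [← hcard, Finset.card_compl]
    have := Finset.card_le_univ S
    omega
  suffices h : Sᶜ.card ≤ 4 by omega
  by_cases hb : ∃ b : Fin (k + 1), (Sum.inl b : V k) ∉ S
  · obtain ⟨b, hb⟩ := hb
    let T : Finset (Fin k × Bool) :=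
      Finset.univ.filter (fun p => (Sum.inr p : V k) ∉ S ∧ (b = p.1.castSucc ∨ b = p.1.succ))
    have hsub : Sᶜ ⊆ insert (Sum.inl b) (T.map Function.Embedding.inr) := by
      have := closure_of_connected (G k) {v : V k | v ∉ S} hc (Sum.inl b) hb
        {v : V k | v = Sum.inl b ∨ ∃ p ∈ T, Sum.inr p = v} (Or.inl rfl) ?_
      · intro x hx
        rcases this (Finset.mem_compl.1 hx) with h | ⟨p, hp, rfl⟩
        · rw [h]; exact Finset.mem_insert_self _ _
        · exact Finset.mem_insert_of_mem (Finset.mem_map.2 ⟨p, hp, rfl⟩)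
      · rintro y hyX (rfl | ⟨p, hp, rfl⟩) z hzX hadj
        · rcases z with z | q
          · exact absurd hadj (fun h => h)
          · exact Or.inr ⟨q, Finset.mem_filter.2 ⟨Finset.mem_univ _, hzX, hadj⟩, rfl⟩
        · rcases z with z | q
          · left
            by_contra hne
            have hzb : z ≠ b := fun h => hne (by rw [h])
            obtain ⟨u, huS, hu⟩ := hd _ hyX
            rcases u with u | u
            · have h1 : b = p.1.castSucc ∨ b = p.1.succ := (Finset.mem_filter.1 hp).2.2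
              have h2 : z = p.1.castSucc ∨ z = p.1.succ := hadj
              have h3 : u = p.1.castSucc ∨ u = p.1.succ := hu
              have h4 : u ≠ b := fun h => hb (h ▸ huS)
              have h5 : u ≠ z := fun h => hzX (h ▸ huS)
              rcases h1 with h1 | h1 <;> rcases h2 with h2 | h2 <;> rcases h3 with h3 | h3
              · exact h4 (h3.trans h1.symm)
              · exact hzb (h2.trans h1.symm)
              · exact h4 (h3.trans h1.symm)
              · exact h5 (h3.trans h2.symm)
              · exact h5 (h3.trans h2.symm)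
              · exact h4 (h3.trans h1.symm)
              · exact hzb (h2.trans h1.symm)
              · exact h4 (h3.trans h1.symm)
            · exact hu
          · exact absurd hadj (fun h => h)
    -- a neighbour of `b` in `S`
    obtain ⟨u, huS, hu⟩ := hd _ hb
    have hT : T.card ≤ 3 := by
      rcases u with u | q
      · exact absurd hu (fun h => h)
      · have hinj : Function.Injective
            (fun p : {p : Fin k × Bool // b = p.1.castSucc ∨ b = p.1.succ} =>
              (decide (b = p.1.1.castSucc), p.1.2)) := by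
          rintro ⟨⟨i, c⟩, hi⟩ ⟨⟨j, d⟩, hj⟩ h
          simp only [Prod.mk.injEq] at h
          obtain ⟨h1, rfl⟩ := h
          have h1' : b = i.castSucc ↔ b = j.castSucc := by
            have := decide_eq_decide.1 h1
            exact this
          have : i = j := by
            by_cases hbi : b = i.castSucc
            · exact Fin.castSucc_injective _ (hbi.symm.trans (h1'.1 hbi))
            · have hbj : ¬ b = j.castSucc := fun h => hbi (h1'.2 h)
              have e1 : b = i.succ := hi.resolve_left hbi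
              have e2 : b = j.succ := hj.resolve_left hbj
              exact Fin.succ_injective _ (e1.symm.trans e2)
          subst this
          rfl
        have h4 : (Finset.univ.filter (fun p : Fin k × Bool =>
            (b = p.1.castSucc ∨ b = p.1.succ))).card ≤ 4 := by
          have := Fintype.card_le_of_injective _ hinj
          rw [Fintype.card_subtype] at this
          simpa using this
        have h5 : T ⊂ Finset.univ.filter (fun p : Fin k × Bool =>
            (b = p.1.castSucc ∨ b = p.1.succ)) := by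
          refine (Finset.ssubset_iff_of_subset ?_).2 ⟨q, ?_, ?_⟩
          · intro p hp
            exact Finset.mem_filter.2 ⟨Finset.mem_univ _, (Finset.mem_filter.1 hp).2.2⟩
          · exact Finset.mem_filter.2 ⟨Finset.mem_univ _, hu⟩
          · intro hq
            exact (Finset.mem_filter.1 hq).2.1 huS
        have := Finset.card_lt_card h5
        omega
    calc Sᶜ.card ≤ (insert (Sum.inl b) (T.map Function.Embedding.inr) : Finset (V k)).card :=
          Finset.card_le_card hsub
      _ ≤ (T.map Function.Embedding.inr).card + 1 := Finset.card_insert_le _ _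
      _ = T.card + 1 := by rw [Finset.card_map]
      _ ≤ 4 := by omega
  · push Not at hb
    obtain ⟨⟨x, hx⟩⟩ := hc.nonempty
    have hsub : Sᶜ ⊆ {x} := by
      have := closure_of_connected (G k) {v : V k | v ∉ S} hc x hx {x} rfl ?_
      · intro y hy
        exact Finset.mem_singleton.2 (this (Finset.mem_compl.1 hy))
      · rintro y hyX rfl z hzX hadj
        rcases y with y | y
        · exact absurd (hb y) hyX
        · rcases z with z | z
          · exact absurd (hb z) hzX
          · exact absurd hadj (fun h => h)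
    have := Finset.card_le_card hsub
    rw [Finset.card_singleton] at this
    omega

/-! ### The upper bound for the middle graph -/

lemma adj1 (k : ℕ) (i : Fin k) (c : Bool) : (G k).Adj (Sum.inl i.castSucc) (Sum.inr (i, c)) :=
  Or.inl rfl

lemma adj2 (k : ℕ) (i : Fin k) (c : Bool) : (G k).Adj (Sum.inl i.succ) (Sum.inr (i, c)) :=
  Or.inr rfl

/-- The edge from the left joint. -/
def e1 (k : ℕ) (i : Fin k) (c : Bool) : (G k).edgeSet :=
  ⟨s(Sum.inl i.castSucc, Sum.inr (i, c)), adj1 k i c⟩

/-- The edge from the right joint. -/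
def e2 (k : ℕ) (i : Fin k) (c : Bool) : (G k).edgeSet :=
  ⟨s(Sum.inl i.succ, Sum.inr (i, c)), adj2 k i c⟩

lemma edge_cases (k : ℕ) (e : (G k).edgeSet) :
    (∃ i c, e = e1 k i c) ∨ ∃ i c, e = e2 k i c := by
  obtain ⟨e, he⟩ := e
  induction e using Sym2.ind with
  | _ x y =>
    rcases x with x | ⟨i, c⟩ <;> rcases y with y | ⟨j, d⟩
    · exact absurd he (fun h => h)
    · rcases he with h | h
      · left; exact ⟨j, d, Subtype.ext (by simp only [e1]; rw [show x = j.castSucc from h])⟩
      · right; exact ⟨j, d, Subtype.ext (by simp only [e2]; rw [show x = j.succ from h])⟩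
    · rcases he with h | h
      · left
        exact ⟨i, c, Subtype.ext (by simp only [e1]; rw [show y = i.castSucc from h, Sym2.eq_swap])⟩
      · right
        exact ⟨i, c, Subtype.ext (by simp only [e2]; rw [show y = i.succ from h, Sym2.eq_swap])⟩
    · exact absurd he (fun h => h)

lemma e1_injective (k : ℕ) {i j : Fin k} {c d : Bool} (h : e1 k i c = e1 k j d) :
    i = j ∧ c = d := by
  have h1 : (Sum.inr (i, c) : V k) ∈ (e1 k j d).1 := by
    rw [← h]; exact Sym2.mem_mk_right _ _
  rcases Sym2.mem_iff.1 h1 with h2 | h2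
  · exact absurd h2 (by simp)
  · have := Sum.inr_injective h2
    exact ⟨congrArg Prod.fst this, congrArg Prod.snd this⟩

lemma e1_ne_e2 (k : ℕ) (i j : Fin k) (c d : Bool) : e1 k i c ≠ e2 k j d := by
  intro h
  have h1 : (Sum.inr (i, c) : V k) ∈ (e2 k j d).1 := by
    rw [← h]; exact Sym2.mem_mk_right _ _
  have h2 : (Sum.inl i.castSucc : V k) ∈ (e2 k j d).1 := by
    rw [← h]; exact Sym2.mem_mk_left _ _
  rcases Sym2.mem_iff.1 h1 with h3 | h3
  · exact absurd h3 (by simp)
  · rcases Sym2.mem_iff.1 h2 with h4 | h4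
    · have e1 := Sum.inr_injective h3
      have e2 : i = j := congrArg Prod.fst e1
      have e3 := Sum.inl_injective h4
      rw [e2] at e3
      exact absurd e3 (ne_of_lt (Fin.castSucc_lt_succ))
    · exact absurd h4 (by simp)

open Classical in
/-- The outer-connected dominating set of the middle graph. -/
noncomputable def D (k : ℕ) : Finset (V k ⊕ (G k).edgeSet) :=
  insert (Sum.inl (Sum.inl (Fin.last k)))
    (Finset.univ.image (fun i : Fin k => Sum.inl (Sum.inr (i, true))) ∪
      Finset.univ.image (fun i : Fin k => Sum.inr (e1 k i false)))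

lemma D_card (k : ℕ) : (D k).card ≤ 2 * k + 1 := by
  classical
  unfold D
  refine (Finset.card_insert_le _ _).trans ?_
  have h1 := Finset.card_union_le (Finset.univ.image
    (fun i : Fin k => (Sum.inl (Sum.inr (i, true)) : V k ⊕ (G k).edgeSet)))
    (Finset.univ.image (fun i : Fin k => (Sum.inr (e1 k i false) : V k ⊕ (G k).edgeSet)))
  have h2 : (Finset.univ.image
    (fun i : Fin k => (Sum.inl (Sum.inr (i, true)) : V k ⊕ (G k).edgeSet))).card ≤ k := by
    simpa using Finset.card_image_le (s := (Finset.univ : Finset (Fin k)))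
      (f := fun i : Fin k => (Sum.inl (Sum.inr (i, true)) : V k ⊕ (G k).edgeSet))
  have h3 : (Finset.univ.image
    (fun i : Fin k => (Sum.inr (e1 k i false) : V k ⊕ (G k).edgeSet))).card ≤ k := by
    simpa using Finset.card_image_le (s := (Finset.univ : Finset (Fin k)))
      (f := fun i : Fin k => (Sum.inr (e1 k i false) : V k ⊕ (G k).edgeSet))
  omega

lemma mem_D (k : ℕ) (x : V k ⊕ (G k).edgeSet) : x ∈ D k ↔
    x = Sum.inl (Sum.inl (Fin.last k)) ∨ (∃ i, x = Sum.inl (Sum.inr (i, true))) ∨
      ∃ i, x = Sum.inr (e1 k i false) := by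
  classical
  unfold D
  rw [Finset.mem_insert, Finset.mem_union, Finset.mem_image, Finset.mem_image]
  constructor
  · rintro (h | ⟨i, _, h⟩ | ⟨i, _, h⟩)
    · exact Or.inl h
    · exact Or.inr (Or.inl ⟨i, h.symm⟩)
    · exact Or.inr (Or.inr ⟨i, h.symm⟩)
  · rintro (h | ⟨i, h⟩ | ⟨i, h⟩)
    · exact Or.inl h
    · exact Or.inr (Or.inl ⟨i, Finset.mem_univ _, h.symm⟩)
    · exact Or.inr (Or.inr ⟨i, Finset.mem_univ _, h.symm⟩)

lemma D_dom (k : ℕ) (x : V k ⊕ (G k).edgeSet) (hx : x ∉ D k) :
    ∃ u ∈ D k, (middleGraph (G k)).Adj x u := by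
  have hD := mem_D k
  rcases x with (b | ⟨i, c⟩) | e
  · -- joint
    have hb : b ≠ Fin.last k := fun h => hx ((hD _).2 (Or.inl (by rw [h])))
    obtain ⟨i, rfl⟩ := Fin.exists_castSucc_eq.2 hb
    exact ⟨Sum.inr (e1 k i false), (hD _).2 (Or.inr (Or.inr ⟨i, rfl⟩)), Sym2.mem_mk_left _ _⟩
  · cases c
    · exact ⟨Sum.inr (e1 k i false), (hD _).2 (Or.inr (Or.inr ⟨i, rfl⟩)), Sym2.mem_mk_right _ _⟩
    · exact absurd ((hD _).2 (Or.inr (Or.inl ⟨i, rfl⟩))) hx
  · rcases edge_cases k e with ⟨i, c, rfl⟩ | ⟨i, c, rfl⟩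
    · cases c
      · exact absurd ((hD _).2 (Or.inr (Or.inr ⟨i, rfl⟩))) hx
      · refine ⟨Sum.inr (e1 k i false), (hD _).2 (Or.inr (Or.inr ⟨i, rfl⟩)), ?_, ?_⟩
        · intro h
          exact absurd (e1_injective k h).2 (by simp)
        · exact ⟨Sum.inl i.castSucc, Sym2.mem_mk_left _ _, Sym2.mem_mk_left _ _⟩
    · cases c
      · refine ⟨Sum.inr (e1 k i false), (hD _).2 (Or.inr (Or.inr ⟨i, rfl⟩)), ?_, ?_⟩
        · exact (e1_ne_e2 k i i false false).symm
        · exact ⟨Sum.inr (i, false), Sym2.mem_mk_right _ _, Sym2.mem_mk_right _ _⟩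
      · exact ⟨Sum.inl (Sum.inr (i, true)), (hD _).2 (Or.inr (Or.inl ⟨i, rfl⟩)),
          Sym2.mem_mk_right _ _⟩

lemma n1 (k : ℕ) (i : Fin k) : (Sum.inr (e1 k i true) : V k ⊕ (G k).edgeSet) ∉ D k := by
  rw [mem_D]
  rintro (h | ⟨j, h⟩ | ⟨j, h⟩)
  · exact absurd h (by simp)
  · exact absurd h (by simp)
  · exact absurd (e1_injective k (Sum.inr_injective h)).2 (by simp)

lemma n2 (k : ℕ) (i : Fin k) (c : Bool) : (Sum.inr (e2 k i c) : V k ⊕ (G k).edgeSet) ∉ D k := by
  rw [mem_D]
  rintro (h | ⟨j, h⟩ | ⟨j, h⟩)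
  · exact absurd h (by simp)
  · exact absurd h (by simp)
  · exact e1_ne_e2 k j i false c (Sum.inr_injective h).symm

lemma e2_ne (k : ℕ) (i : Fin k) : e2 k i true ≠ e2 k i false := by
  intro h
  have h1 : (Sum.inr (i, true) : V k) ∈ (e2 k i false).1 := by
    rw [← h]; exact Sym2.mem_mk_right _ _
  rcases Sym2.mem_iff.1 h1 with h2 | h2 <;> simp at h2

lemma D_conn (k : ℕ) (hk : 0 < k) :
    ((middleGraph (G k)).induce {v | v ∉ D k}).Connected := by
  set H := (middleGraph (G k)).induce {v | v ∉ D k} with hH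
  have adjE : ∀ (x y : V k ⊕ (G k).edgeSet) (hx : x ∉ D k) (hy : y ∉ D k),
      (middleGraph (G k)).Adj x y → H.Adj ⟨x, hx⟩ ⟨y, hy⟩ := fun x y hx hy h => h
  have h12 : ∀ i : Fin k, H.Adj ⟨Sum.inr (e1 k i true), n1 k i⟩ ⟨Sum.inr (e2 k i true), n2 k i true⟩ :=
    fun i => adjE _ _ _ _ ⟨e1_ne_e2 k i i true true, Sum.inr (i, true), Sym2.mem_mk_right _ _,
      Sym2.mem_mk_right _ _⟩
  have h22 : ∀ i : Fin k, H.Adj ⟨Sum.inr (e2 k i true), n2 k i true⟩
      ⟨Sum.inr (e2 k i false), n2 k i false⟩ :=
    fun i => adjE _ _ _ _ ⟨e2_ne k i, Sum.inl i.succ, Sym2.mem_mk_left _ _,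
      Sym2.mem_mk_left _ _⟩
  have base : ∀ (m : ℕ) (hm : m < k), H.Reachable ⟨Sum.inr (e1 k ⟨0, hk⟩ true), n1 k ⟨0, hk⟩⟩
      ⟨Sum.inr (e1 k ⟨m, hm⟩ true), n1 k ⟨m, hm⟩⟩ := by
    intro m
    induction m with
    | zero => intro hm; exact SimpleGraph.Reachable.refl _
    | succ m ih =>
      intro hm
      have hm' : m < k := by omega
      refine (ih hm').trans ((h12 ⟨m, hm'⟩).reachable.trans (SimpleGraph.Adj.reachable ?_))
      refine adjE _ _ _ _ ⟨(e1_ne_e2 k _ _ _ _).symm, Sum.inl (Fin.succ ⟨m, hm'⟩),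
        Sym2.mem_mk_left _ _, ?_⟩
      have : (Fin.succ ⟨m, hm'⟩ : Fin (k + 1)) = Fin.castSucc ⟨m + 1, hm⟩ := rfl
      rw [this]
      exact Sym2.mem_mk_left _ _
  have reach1 : ∀ i : Fin k, H.Reachable ⟨Sum.inr (e1 k ⟨0, hk⟩ true), n1 k ⟨0, hk⟩⟩
      ⟨Sum.inr (e1 k i true), n1 k i⟩ := fun i => base i.1 i.2
  rw [SimpleGraph.connected_iff_exists_forall_reachable]
  refine ⟨⟨Sum.inr (e1 k ⟨0, hk⟩ true), n1 k ⟨0, hk⟩⟩, ?_⟩
  rintro ⟨x, hx⟩
  rcases x with (b | ⟨i, c⟩) | e
  · have hb : b ≠ Fin.last k := fun h => hx ((mem_D k _).2 (Or.inl (by rw [h])))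
    obtain ⟨i, rfl⟩ := Fin.exists_castSucc_eq.2 hb
    refine (reach1 i).trans (SimpleGraph.Adj.reachable (adjE _ _ _ _ ?_))
    exact Sym2.mem_mk_left _ _
  · cases c
    · refine (reach1 i).trans ((h12 i).reachable.trans ((h22 i).reachable.trans
        (SimpleGraph.Adj.reachable (adjE _ _ _ _ ?_))))
      exact Sym2.mem_mk_right _ _
    · exact absurd ((mem_D k _).2 (Or.inr (Or.inl ⟨i, rfl⟩))) hx
  · rcases edge_cases k e with ⟨i, c, rfl⟩ | ⟨i, c, rfl⟩
    · cases c
      · exact absurd ((mem_D k _).2 (Or.inr (Or.inr ⟨i, rfl⟩))) hx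
      · exact reach1 i
    · cases c
      · exact (reach1 i).trans ((h12 i).reachable.trans (h22 i).reachable)
      · exact (reach1 i).trans (h12 i).reachable

lemma G_connected (k : ℕ) : (G k).Connected := by
  have base : ∀ (m : ℕ) (hm : m < k + 1),
      (G k).Reachable (Sum.inl ⟨0, Nat.succ_pos k⟩) (Sum.inl ⟨m, hm⟩) := by
    intro m
    induction m with
    | zero => intro hm; exact SimpleGraph.Reachable.refl _
    | succ m ih =>
      intro hm
      have hm' : m < k := by omega
      exact (ih (by omega)).trans ((adj1 k ⟨m, hm'⟩ true).reachable.trans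
        (adj2 k ⟨m, hm'⟩ true).symm.reachable)
  rw [SimpleGraph.connected_iff_exists_forall_reachable]
  refine ⟨Sum.inl ⟨0, Nat.succ_pos k⟩, ?_⟩
  rintro (b | ⟨i, c⟩)
  · exact base b.1 b.2
  · exact (base i.castSucc.1 i.castSucc.2).trans (adj1 k i c).reachable

lemma num_lower (k : ℕ) (hk : 0 < k) : 3 * k + 1 ≤ outerConnDomNum (G k) + 4 := by
  classical
  have hne : {m | ∃ S : Finset (V k), IsOuterConnectedDominating (G k) S ∧ S.card = m}.Nonempty := by
    refine ⟨_, Finset.univ.erase (Sum.inl 0), ⟨?_, ?_⟩, rfl⟩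
    · intro v hv
      have hv0 : v = Sum.inl 0 := by
        by_contra h
        exact hv (Finset.mem_erase.2 ⟨h, Finset.mem_univ _⟩)
      subst hv0
      refine ⟨Sum.inr (⟨0, hk⟩, true), Finset.mem_erase.2 ⟨by simp, Finset.mem_univ _⟩, ?_⟩
      exact Or.inl rfl
    · have hone : ∀ x : {v : V k | v ∉ Finset.univ.erase (Sum.inl 0 : V k)}, x.1 = Sum.inl 0 := by
        rintro ⟨x, hx⟩
        by_contra h
        exact hx (Finset.mem_erase.2 ⟨h, Finset.mem_univ _⟩)
      rw [SimpleGraph.connected_iff_exists_forall_reachable]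
      refine ⟨⟨Sum.inl 0, fun h => (Finset.mem_erase.1 h).1 rfl⟩, ?_⟩
      intro x
      rw [show x = ⟨Sum.inl 0, fun h => (Finset.mem_erase.1 h).1 rfl⟩ from Subtype.ext (hone x)]
  obtain ⟨S, hS, hc⟩ := Nat.sInf_mem hne
  have := lower k S hS
  unfold outerConnDomNum
  omega

/-- **Theorem.** For every `K` there is a connected graph of order at least two whose
outer-connected domination number is at least `K` plus that of its middle graph. -/
theorem result (K : ℕ) : ∃ (V : Type) (_ : Fintype V) (G : SimpleGraph V), G.Connected ∧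
    2 ≤ Fintype.card V ∧ outerConnDomNum (middleGraph G) + K ≤ outerConnDomNum G := by
  refine ⟨V (K + 4), inferInstance, G (K + 4), G_connected _, ?_, ?_⟩
  · simp only [V, Fintype.card_sum, Fintype.card_fin, Fintype.card_prod, Fintype.card_bool]
    omega
  · have h1 := num_lower (K + 4) (by omega)
    have h2 : outerConnDomNum (middleGraph (G (K + 4))) ≤ (D (K + 4)).card :=
      Nat.sInf_le ⟨D (K + 4), ⟨D_dom (K + 4), D_conn (K + 4) (by omega)⟩, rfl⟩
    have h3 := D_card (K + 4)
    omega

end Pool.Agent.Results.MP_43f51c_co.CycleChains
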